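import Pool.Agent.Lib.MP_dc9a2a_an.Limit

/-!
The locally finite group acting on the Gurarij space.
-/

open Filter Topology

namespace Pool.Agent.Lib.MP_dc9a2a_an

variable {G : Type} [NormedAddCommGroup G] [NormedSpace ℝ G]

omit [NormedSpace ℝ G] in
theorem conv_seq [CompleteSpace G] (a : ℕ → G) (K : ℕ)
    (h : ∀ m ≥ K, ‖a (m + 1) - a m‖ ≤ 3 * (1 / 2 : ℝ) ^ m) :
    ∃ ℓ, Tendsto a atTop (𝓝 ℓ) ∧ ∀ k ≥ K, ‖ℓ - a k‖ ≤ 6 * (1 / 2 : ℝ) ^ k := by
  have hb : ∀ k ≥ K, ∀ n, dist (a (n + k)) (a (n + 1 + k)) ≤ (3 * (1 / 2 : ℝ) ^ k) * (1 / 2) ^ n := by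
    intro k hk n
    have h1 := h (n + k) (by omega)
    rw [dist_comm, dist_eq_norm]
    have h2 : n + 1 + k = n + k + 1 := by omega
    rw [h2]
    refine h1.trans (le_of_eq ?_)
    rw [pow_add]
    ring
  have hc : CauchySeq (fun n => a (n + K)) :=
    cauchySeq_of_le_geometric (1 / 2) (3 * (1 / 2 : ℝ) ^ K) (by norm_num) (hb K le_rfl)
  obtain ⟨ℓ, hℓ⟩ := cauchySeq_tendsto_of_complete hc
  have hℓ' : Tendsto a atTop (𝓝 ℓ) := (tendsto_add_atTop_iff_nat K).1 hℓ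
  refine ⟨ℓ, hℓ', fun k hk => ?_⟩
  have h1 : Tendsto (fun n => a (n + k)) atTop (𝓝 ℓ) := (tendsto_add_atTop_iff_nat k).2 hℓ'
  have h2 := dist_le_of_le_geometric_of_tendsto₀ (1 / 2) (3 * (1 / 2 : ℝ) ^ k) (by norm_num)
    (hb k hk) h1
  rw [dist_comm, dist_eq_norm] at h2
  simp only [zero_add] at h2
  refine h2.trans (le_of_eq ?_)
  ring

theorem thread_exists {A : ℕ → Type} [∀ m, Group (A m)] (ι : ∀ m, A m →* A (m + 1)) (M : ℕ)
    (t : A M) : ∃ θ : ∀ m, A m, θ M = t ∧ ∀ m ≥ M, θ (m + 1) = ι m (θ m) := by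
  classical
  refine ⟨fun n => if h : M ≤ n then Nat.leRecOn h (fun {k} => ι k) t else 1, ?_, ?_⟩
  · simp [Nat.leRecOn_self]
  · intro m hm
    have h1 : M ≤ m + 1 := by omega
    have h2 : M ≤ m := hm
    simp only [h1, h2, dif_pos]
    exact Nat.leRecOn_succ hm t

theorem construct (hG : GurProp G) [CompleteSpace G] (y : ℕ → G) (hy : DenseRange y) :
    ∃ (Θ : Type) (_ : Group Θ) (ρ : Θ →* (G ≃ₗᵢ[ℝ] G)) (Lv : ℕ → Subgroup Θ),
      Monotone Lv ∧ (∀ θ, ∃ k, θ ∈ Lv k) ∧ (∀ k, (ρ '' (Lv k : Set Θ)).Finite) ∧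
      ∀ τ : Task, Sym y τ → ∃ θ, ∀ j,
        ‖ρ θ (y (τ.1.2 j)) - y (τ.1.2 (swp j))‖ ≤ 4 * prec τ := by
  classical
  obtain ⟨f₀, hf₀⟩ : ∃ f₀ : ℕ → Task, Function.Surjective f₀ := by
    have : Nonempty Task := ⟨⟨⟨0, fun _ => 0⟩, 0⟩⟩
    exact exists_surjective_nat Task
  let f : ℕ → Task := fun m => f₀ (Nat.unpair m).1
  have hf : ∀ τ M, ∃ m ≥ M, f m = τ := by
    intro τ M
    obtain ⟨i, hi⟩ := hf₀ τ
    refine ⟨Nat.pair i M, Nat.right_le_pair i M, ?_⟩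
    simp [f, hi]
  obtain ⟨s, hs⟩ := dep_choice (St.init y) _ (next_exists hG y f)
  choose ι hι1 hι2 using hs
  let Θ : Subgroup (∀ m, (s m).H) :=
    { carrier := {θ | ∃ k, ∀ m ≥ k, θ (m + 1) = ι m (θ m)}
      mul_mem' := by
        rintro a b ⟨k, hk⟩ ⟨l, hl⟩
        refine ⟨max k l, fun m hm => ?_⟩
        rw [Pi.mul_apply, Pi.mul_apply, map_mul, hk m ((le_max_left _ _).trans hm),
          hl m ((le_max_right _ _).trans hm)]
      one_mem' := ⟨0, fun m _ => by simp⟩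
      inv_mem' := by
        rintro a ⟨k, hk⟩
        refine ⟨k, fun m hm => ?_⟩
        rw [Pi.inv_apply, Pi.inv_apply, map_inv, hk m hm] }
  -- the limit vectors
  have hlim : ∀ (θ : Θ) (i : ℕ), ∃ ℓ, Tendsto (fun m => (s m).z (θ.1 m) i) atTop (𝓝 ℓ) ∧
      ∀ K, (∀ m ≥ K, θ.1 (m + 1) = ι m (θ.1 m)) → i < K →
        ‖ℓ - (s K).z (θ.1 K) i‖ ≤ 6 * (1 / 2 : ℝ) ^ K := by
    intro θ i
    have hstep : ∀ K, (∀ m ≥ K, θ.1 (m + 1) = ι m (θ.1 m)) → i < K → ∀ m ≥ K,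
        ‖(s (m + 1)).z (θ.1 (m + 1)) i - (s m).z (θ.1 m) i‖ ≤ 3 * (1 / 2 : ℝ) ^ m := by
      intro K hK hi m hm
      rw [hK m hm]
      exact hι1 m (θ.1 m) i (by omega)
    obtain ⟨k, hk⟩ := θ.2
    obtain ⟨ℓ, h1, -⟩ := conv_seq (fun m => (s m).z (θ.1 m) i) (max k (i + 1))
      (hstep _ (fun m hm => hk m ((le_max_left _ _).trans hm))
        (lt_of_lt_of_le (Nat.lt_succ_self i) (le_max_right _ _)))
    refine ⟨ℓ, h1, fun K hK hi => ?_⟩
    obtain ⟨ℓ', h1', h2'⟩ := conv_seq (fun m => (s m).z (θ.1 m) i) K (hstep K hK hi)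
    rw [tendsto_nhds_unique h1 h1']
    exact h2' K le_rfl
  choose ζ hζ1 hζ2 using hlim
  have hζone : ∀ i, ζ 1 i = y i := by
    intro i
    refine tendsto_nhds_unique (hζ1 1 i) ?_
    have : (fun m => (s m).z ((1 : Θ).1 m) i) = fun _ => y i := by
      funext m
      exact (s m).z1 i
    rw [this]
    exact tendsto_const_nhds
  have hinv : ∀ (P : Type) [Fintype P] (θ : Θ) (τ : P → Θ) (i : P → ℕ) (c : P → ℝ),
      ‖∑ p, c p • ζ (θ * τ p) (i p)‖ ≤ ‖∑ p, c p • ζ (τ p) (i p)‖ := by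
    intro P _ θ τ i c
    have h1 : Tendsto (fun m => ‖∑ p, c p • (s m).z ((θ * τ p).1 m) (i p)‖) atTop
        (𝓝 ‖∑ p, c p • ζ (θ * τ p) (i p)‖) :=
      (tendsto_finsetSum _ fun p _ => (hζ1 (θ * τ p) (i p)).const_smul (c p)).norm
    have h2 : Tendsto (fun m => ‖∑ p, c p • (s m).z ((τ p).1 m) (i p)‖
        + (1 / 2 : ℝ) ^ m * ∑ p, |c p|) atTop
        (𝓝 (‖∑ p, c p • ζ (τ p) (i p)‖ + 0 * ∑ p, |c p|)) :=
      (tendsto_finsetSum _ fun p _ => (hζ1 (τ p) (i p)).const_smul (c p)).norm.add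
        ((tendsto_pow_atTop_nhds_zero_of_lt_one (by norm_num) (by norm_num)).mul_const _)
    rw [zero_mul, add_zero] at h2
    refine le_of_tendsto_of_tendsto h1 h2 ?_
    obtain ⟨M, hM⟩ : ∃ M : ℕ, ∀ p, i p < M := by
      refine ⟨(∑ p, i p) + 1, fun p => ?_⟩
      have := Finset.single_le_sum (f := i) (fun _ _ => Nat.zero_le _) (Finset.mem_univ p)
      omega
    filter_upwards [eventually_ge_atTop M] with m hm
    exact (s m).inv P (θ.1 m) (fun p => (τ p).1 m) i c (fun p => lt_of_lt_of_le (hM p) hm)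
  have hdense : DenseRange (ζ 1) := by
    have : ζ 1 = y := funext hζone
    rw [this]
    exact hy
  obtain ⟨ρ, hρ⟩ := exists_action ζ hdense hinv
  have hρy : ∀ θ i, ρ θ (y i) = ζ θ i := by
    intro θ i
    rw [← hζone, hρ, mul_one]
  let Lv : ℕ → Subgroup Θ := fun k =>
    { carrier := {θ | ∀ m ≥ k, θ.1 (m + 1) = ι m (θ.1 m)}
      mul_mem' := by
        intro a b hk hl m hm
        show (a.1 * b.1) (m + 1) = ι m ((a.1 * b.1) m)
        rw [Pi.mul_apply, Pi.mul_apply, map_mul, hk m hm, hl m hm]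
      one_mem' := by
        intro m _
        show (1 : ∀ m, (s m).H) (m + 1) = ι m ((1 : ∀ m, (s m).H) m)
        simp
      inv_mem' := by
        intro a hk m hm
        show (a.1⁻¹) (m + 1) = ι m ((a.1⁻¹) m)
        rw [Pi.inv_apply, Pi.inv_apply, map_inv, hk m hm] }
  refine ⟨Θ, inferInstance, ρ, Lv, ?_, ?_, ?_, ?_⟩
  · intro k l hkl θ hθ m hm
    exact hθ m (hkl.trans hm)
  · rintro ⟨θ, k, hk⟩
    exact ⟨k, hk⟩
  · intro k
    -- `ρ θ` is determined by `θ k`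
    have hdet : ∀ θ ∈ Lv k, ∀ θ' ∈ Lv k, θ.1 k = θ'.1 k → ρ θ = ρ θ' := by
      intro θ hθ θ' hθ' h
      have hall : ∀ m ≥ k, θ.1 m = θ'.1 m := by
        intro m hm
        induction m, hm using Nat.le_induction with
        | base => exact h
        | succ m hm ih => rw [hθ m hm, hθ' m hm, ih]
      have hζ : ∀ i, ζ θ i = ζ θ' i := by
        intro i
        refine tendsto_nhds_unique (hζ1 θ i) ((hζ1 θ' i).congr' ?_)
        filter_upwards [eventually_ge_atTop k] with m hm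
        rw [hall m hm]
      ext x
      have h1 : (fun x => ρ θ x) = fun x => ρ θ' x := by
        refine hy.equalizer (ρ θ).continuous (ρ θ').continuous ?_
        funext i
        show ρ θ (y i) = ρ θ' (y i)
        rw [hρy, hρy, hζ]
      exact congrFun h1 x
    have hch : ∀ g : (ρ '' (Lv k : Set Θ)), ∃ θ ∈ Lv k, ρ θ = g.1 := by
      rintro ⟨g, θ, hθ, rfl⟩
      exact ⟨θ, hθ, rfl⟩
    choose F hF1 hF2 using hch
    have hinj : Function.Injective (fun g : (ρ '' (Lv k : Set Θ)) => (F g).1 k) := by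
      intro g g' h
      have := hdet _ (hF1 g) _ (hF1 g') h
      rw [hF2, hF2] at this
      exact Subtype.ext this
    have : Finite (ρ '' (Lv k : Set Θ)) := Finite.of_injective _ hinj
    exact Set.toFinite _
  · intro τ hτ
    obtain ⟨M, hM⟩ : ∃ M : ℕ, ∀ j, τ.1.2 j < M := by
      refine ⟨(∑ j, τ.1.2 j) + 1, fun j => ?_⟩
      have := Finset.single_le_sum (f := τ.1.2) (fun _ _ => Nat.zero_le _) (Finset.mem_univ j)
      omega
    obtain ⟨M', hM'⟩ : ∃ M' : ℕ, ∀ m ≥ M', 6 * (1 / 2 : ℝ) ^ m ≤ prec τ := by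
      have h1 : Tendsto (fun m : ℕ => 6 * (1 / 2 : ℝ) ^ m) atTop (𝓝 (6 * 0)) :=
        (tendsto_pow_atTop_nhds_zero_of_lt_one (by norm_num) (by norm_num)).const_mul _
      rw [mul_zero] at h1
      have h2 := h1.eventually (gt_mem_nhds (prec_pos τ))
      obtain ⟨M', h3⟩ := eventually_atTop.1 h2
      exact ⟨M', fun m hm => (h3 m hm).le⟩
    obtain ⟨m, hm, hfm⟩ := hf τ (max M M')
    have h4 := hι2 m
    rw [hfm] at h4
    obtain ⟨t, ht⟩ := h4 (fun j => by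
      have := hM j
      have := (le_max_left M M').trans hm
      omega) hτ
    obtain ⟨θ, hθ1, hθ2⟩ := thread_exists (fun m => ι m) (m + 1) t
    refine ⟨⟨θ, m + 1, hθ2⟩, fun j => ?_⟩
    rw [hρy]
    have h5 := hζ2 ⟨θ, m + 1, hθ2⟩ (τ.1.2 j) (m + 1) hθ2 (by
      have := hM j
      have := (le_max_left M M').trans hm
      omega)
    have h6 := hM' (m + 1) (by
      have := (le_max_right M M').trans hm
      omega)
    simp only at h5
    rw [hθ1] at h5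
    calc ‖ζ ⟨θ, m + 1, hθ2⟩ (τ.1.2 j) - y (τ.1.2 (swp j))‖
        ≤ ‖ζ ⟨θ, m + 1, hθ2⟩ (τ.1.2 j) - (s (m + 1)).z t (τ.1.2 j)‖
          + ‖(s (m + 1)).z t (τ.1.2 j) - y (τ.1.2 (swp j))‖ := norm_sub_le_norm_sub_add_norm_sub _ _ _
      _ ≤ prec τ + 3 * prec τ := add_le_add (h5.trans h6) (ht j)
      _ = 4 * prec τ := by ring

end Pool.Agent.Lib.MP_dc9a2a_an
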