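import Pool.Agent.Lib.MP_dc9a2a_an.Construct

/-!
Density of the constructed group.
-/

open Filter Topology

namespace Pool.Agent.Lib.MP_dc9a2a_an

variable {G : Type} [NormedAddCommGroup G] [NormedSpace ℝ G]

/-- A second copy of a finite-dimensional subspace, almost in `ℓ_1`-position. -/
theorem free_copy (hG : GurProp G) (E : Submodule ℝ G) [FiniteDimensional ℝ E] {ε : ℝ}
    (hε : 0 < ε) : ∃ S : E →ₗ[ℝ] G, ∀ e e' : E,
      (1 - ε) * (‖e‖ + ‖e'‖) ≤ ‖(e : G) + S e'‖ ∧ ‖(e : G) + S e'‖ ≤ (1 + ε) * (‖e‖ + ‖e'‖) := by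
  let F := WithLp 1 (E × E)
  let L : F →ₗ[ℝ] E := LinearMap.snd ℝ E E ∘ₗ (WithLp.linearEquiv 1 ℝ (E × E)).toLinearMap
  let L1 : F →ₗ[ℝ] E := LinearMap.fst ℝ E E ∘ₗ (WithLp.linearEquiv 1 ℝ (E × E)).toLinearMap
  let E₀ : Submodule ℝ F := LinearMap.ker L
  let T : E₀ →ₗᵢ[ℝ] G := ⟨E.subtype ∘ₗ L1 ∘ₗ E₀.subtype, by
    intro x
    have h1 : ‖(x : F)‖ = ‖(x : F).fst‖ + ‖(x : F).snd‖ := WithLp.prod_norm_eq_of_L1 (x : F)
    have h2 : (x : F).snd = 0 := x.2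
    rw [h2, norm_zero, add_zero] at h1
    exact h1.symm⟩
  obtain ⟨S, hS1, hS2⟩ := hG F E₀ T ε hε
  let I2 : E →ₗ[ℝ] F := (WithLp.linearEquiv 1 ℝ (E × E)).symm.toLinearMap ∘ₗ LinearMap.inr ℝ E E
  refine ⟨S ∘ₗ I2, fun e e' => ?_⟩
  have h3 : (e : G) + (S ∘ₗ I2) e' = S (WithLp.toLp 1 (e, e')) := by
    have h4 : (WithLp.toLp 1 (e, e') : F) = WithLp.toLp 1 (e, 0) + WithLp.toLp 1 (0, e') := by
      rw [← WithLp.toLp_add]
      simp
    rw [h4, map_add]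
    have h5 : (WithLp.toLp 1 (e, 0) : F) ∈ E₀ := rfl
    have h6 := hS1 ⟨_, h5⟩
    rw [h6]
    rfl
  have h7 : ‖(WithLp.toLp 1 (e, e') : F)‖ = ‖e‖ + ‖e'‖ := WithLp.prod_norm_eq_of_L1 _
  rw [h3, ← h7]
  exact hS2 _

/-- Almost invariance of a family under the exchange of its halves. -/
def NearSym {n : ℕ} (v : Bool × Fin n → G) (η : ℝ) : Prop :=
  ∀ c : Bool × Fin n → ℝ, ‖∑ j, c j • v (swp j)‖ ≤ ‖∑ j, c j • v j‖ + η * ∑ j, |c j|

theorem nearSym_approx {n : ℕ} {v w : Bool × Fin n → G} {η ρ : ℝ} (h : NearSym v η)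
    (hw : ∀ j, ‖w j - v j‖ ≤ ρ) : NearSym w (η + 2 * ρ) := by
  intro c
  have key : ∀ (r : Bool × Fin n → Bool × Fin n),
      ‖∑ j, c j • w (r j) - ∑ j, c j • v (r j)‖ ≤ ρ * ∑ j, |c j| := by
    intro r
    rw [← Finset.sum_sub_distrib, Finset.mul_sum]
    refine (norm_sum_le _ _).trans (Finset.sum_le_sum fun j _ => ?_)
    rw [← smul_sub, norm_smul, Real.norm_eq_abs, mul_comm]
    exact mul_le_mul_of_nonneg_right (hw (r j)) (abs_nonneg _)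
  have h1 := key swp
  have h2 := key id
  simp only [id] at h2
  have h3 := h c
  have h4 : ‖∑ j, c j • w (swp j)‖ ≤ ‖∑ j, c j • v (swp j)‖ + ρ * ∑ j, |c j| := by
    have := norm_sub_norm_le (∑ j, c j • w (swp j)) (∑ j, c j • v (swp j))
    linarith
  have h5 : ‖∑ j, c j • v j‖ ≤ ‖∑ j, c j • w j‖ + ρ * ∑ j, |c j| := by
    have := norm_sub_norm_le (∑ j, c j • v j) (∑ j, c j • w j)
    rw [norm_sub_rev] at this
    linarith
  have h6 : (η + 2 * ρ) * ∑ j, |c j| = η * ∑ j, |c j| + 2 * (ρ * ∑ j, |c j|) := by ring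
  rw [h6]
  linarith

theorem exchange [CompleteSpace G] {y : ℕ → G} (hy : DenseRange y) {Θ : Type} [Group Θ]
    (ρ : Θ →* (G ≃ₗᵢ[ℝ] G))
    (hρ : ∀ τ : Task, Sym y τ → ∃ θ, ∀ j,
        ‖ρ θ (y (τ.1.2 j)) - y (τ.1.2 (swp j))‖ ≤ 4 * prec τ)
    (N : ℕ) {n : ℕ} (v : Bool × Fin n → G) (hv : NearSym v (1 / ((N : ℝ) + 1) / 2)) :
    ∃ θ, ∀ j, ‖ρ θ (v j) - v (swp j)‖ ≤ 5 * (1 / ((N : ℝ) + 1)) := by
  have hp : 0 < 1 / ((N : ℝ) + 1) := by positivity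
  have hex : ∀ j, ∃ i, ‖y i - v j‖ ≤ 1 / ((N : ℝ) + 1) / 4 := by
    intro j
    obtain ⟨i, hi⟩ := hy.exists_dist_lt (v j) (show 0 < 1 / ((N : ℝ) + 1) / 4 by positivity)
    refine ⟨i, ?_⟩
    rw [← dist_eq_norm, dist_comm]
    exact hi.le
  choose a ha using hex
  have h1 := nearSym_approx hv ha
  have h2 : Sym y (⟨n, a⟩, N) := by
    intro c
    have := h1 c
    have e : 1 / ((N : ℝ) + 1) / 2 + 2 * (1 / ((N : ℝ) + 1) / 4) = prec (⟨n, a⟩, N) := by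
      unfold prec
      ring
    rw [e] at this
    exact this
  obtain ⟨θ, hθ⟩ := hρ _ h2
  refine ⟨θ, fun j => ?_⟩
  have h3 := hθ j
  have e2 : 4 * prec (⟨n, a⟩, N) = 4 * (1 / ((N : ℝ) + 1)) := rfl
  rw [e2] at h3
  simp only at h3
  have h4 : ‖ρ θ (v j) - ρ θ (y (a j))‖ ≤ 1 / ((N : ℝ) + 1) / 4 := by
    rw [← map_sub, LinearIsometryEquiv.norm_map, norm_sub_rev]
    exact ha j
  have h5 := ha (swp j)
  have h6 : ρ θ (v j) - v (swp j) = (ρ θ (v j) - ρ θ (y (a j)))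
      + (ρ θ (y (a j)) - y (a (swp j))) + (y (a (swp j)) - v (swp j)) := by abel
  rw [h6]
  refine (norm_add₃_le).trans ?_
  linarith

omit [NormedSpace ℝ G] in
theorem sum_bool {n : ℕ} (F : Bool × Fin n → G) :
    ∑ j, F j = (∑ j, F (false, j)) + ∑ j, F (true, j) := by
  rw [Fintype.sum_prod_type, Fintype.sum_bool, add_comm]

theorem sum_bool_real {n : ℕ} (F : Bool × Fin n → ℝ) :
    ∑ j, F j = (∑ j, F (false, j)) + ∑ j, F (true, j) := by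
  rw [Fintype.sum_prod_type, Fintype.sum_bool, add_comm]

theorem dense_group [CompleteSpace G] (hG : GurProp G) {y : ℕ → G} (hy : DenseRange y) {Θ : Type}
    [Group Θ] (ρ : Θ →* (G ≃ₗᵢ[ℝ] G))
    (hρ : ∀ τ : Task, Sym y τ → ∃ θ, ∀ j,
        ‖ρ θ (y (τ.1.2 j)) - y (τ.1.2 (swp j))‖ ≤ 4 * prec τ)
    (g : G ≃ₗᵢ[ℝ] G) (s : Finset G) {ε : ℝ} (hε : 0 < ε) :
    ∃ θ, ∀ x ∈ s, ‖ρ θ x - g x‖ < ε := by
  obtain ⟨n, x, hx⟩ : ∃ (n : ℕ) (x : Fin n → G), ∀ v ∈ s, ∃ j, x j = v := by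
    refine ⟨s.card, fun j => (s.equivFin.symm j).1, fun v hv => ?_⟩
    exact ⟨s.equivFin ⟨v, hv⟩, by simp⟩
  obtain ⟨N, hN⟩ := exists_nat_one_div_lt (show 0 < ε / 10 by positivity)
  have hp : 0 < 1 / ((N : ℝ) + 1) := by positivity
  set E : Submodule ℝ G := Submodule.span ℝ (Set.range (Sum.elim x (fun j => g (x j)))) with hE
  have hfd : FiniteDimensional ℝ E := FiniteDimensional.span_of_finite ℝ (Set.finite_range _)
  have hxE : ∀ j, x j ∈ E := fun j => Submodule.subset_span ⟨Sum.inl j, rfl⟩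
  have hgE : ∀ j, g (x j) ∈ E := fun j => Submodule.subset_span ⟨Sum.inr j, rfl⟩
  set M : ℝ := ∑ j, ‖x j‖ with hM
  have hM0 : 0 ≤ M := Finset.sum_nonneg fun _ _ => norm_nonneg _
  have hMc : ∀ c : Fin n → ℝ, ‖∑ j, c j • x j‖ ≤ M * ∑ j, |c j| := by
    intro c
    rw [Finset.mul_sum]
    refine (norm_sum_le _ _).trans (Finset.sum_le_sum fun j _ => ?_)
    rw [norm_smul, Real.norm_eq_abs, mul_comm]
    exact mul_le_mul_of_nonneg_right
      (Finset.single_le_sum (f := fun j => ‖x j‖) (fun _ _ => norm_nonneg _) (Finset.mem_univ j))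
      (abs_nonneg _)
  have hgc : ∀ c : Fin n → ℝ, ‖∑ j, c j • g (x j)‖ = ‖∑ j, c j • x j‖ := by
    intro c
    have : ∑ j, c j • g (x j) = g (∑ j, c j • x j) := by
      rw [map_sum]
      refine Finset.sum_congr rfl fun j _ => ?_
      rw [map_smul]
    rw [this, LinearIsometryEquiv.norm_map]
  obtain ⟨κ, hκ0, hκM⟩ : ∃ κ : ℝ, 0 < κ ∧ 2 * κ * M ≤ 1 / ((N : ℝ) + 1) / 2 := by
    refine ⟨1 / ((N : ℝ) + 1) / (4 * (M + 1)), by positivity, ?_⟩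
    have h1 : M / (M + 1) ≤ 1 := by
      rw [div_le_one (by positivity)]
      linarith
    calc 2 * (1 / ((N : ℝ) + 1) / (4 * (M + 1))) * M
        = 1 / ((N : ℝ) + 1) / 2 * (M / (M + 1)) := by field_simp; ring
      _ ≤ 1 / ((N : ℝ) + 1) / 2 * 1 := by gcongr
      _ = _ := mul_one _
  obtain ⟨S, hS⟩ := free_copy hG E hκ0
  let X : Fin n → E := fun j => ⟨x j, hxE j⟩
  let X' : Fin n → E := fun j => ⟨g (x j), hgE j⟩
  let u : Fin n → G := fun j => S (X j)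
  have hXs : ∀ c : Fin n → ℝ, ‖∑ j, c j • X j‖ = ‖∑ j, c j • x j‖ := by
    intro c
    show ‖((∑ j, c j • X j : E) : G)‖ = _
    congr 1
    simp [X]
  have hX's : ∀ c : Fin n → ℝ, ‖∑ j, c j • X' j‖ = ‖∑ j, c j • x j‖ := by
    intro c
    rw [← hgc c]
    show ‖((∑ j, c j • X' j : E) : G)‖ = _
    congr 1
    simp [X']
  -- general combination
  have hcomb : ∀ (Z : Fin n → E) (z : Fin n → G), (∀ j, (Z j : G) = z j) →
      (∀ c : Fin n → ℝ, ‖∑ j, c j • Z j‖ = ‖∑ j, c j • x j‖) → ∀ c d : Fin n → ℝ,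
      (1 - κ) * (‖∑ j, c j • x j‖ + ‖∑ j, d j • x j‖) ≤
        ‖∑ j, c j • z j + ∑ j, d j • u j‖ ∧
      ‖∑ j, c j • z j + ∑ j, d j • u j‖ ≤
        (1 + κ) * (‖∑ j, c j • x j‖ + ‖∑ j, d j • x j‖) := by
    intro Z z hZz hZ c d
    have h1 := hS (∑ j, c j • Z j) (∑ j, d j • X j)
    rw [hZ, hXs] at h1
    have h2 : ((∑ j, c j • Z j : E) : G) = ∑ j, c j • z j := by
      simp [hZz]
    have h3 : S (∑ j, d j • X j) = ∑ j, d j • u j := by
      simp [u]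
    rw [h2, h3] at h1
    exact h1
  have hc1 := hcomb X x (fun _ => rfl) hXs
  have hc2 := hcomb X' (fun j => g (x j)) (fun _ => rfl) hX's
  have hfinal : ∀ (A B : ℝ) (c d : Fin n → ℝ),
      A ≤ (1 + κ) * (‖∑ j, c j • x j‖ + ‖∑ j, d j • x j‖) →
      (1 - κ) * (‖∑ j, c j • x j‖ + ‖∑ j, d j • x j‖) ≤ B →
      A ≤ B + 1 / ((N : ℝ) + 1) / 2 * (∑ j, |c j| + ∑ j, |d j|) := by
    intro A B c d h1 h2
    have h3 := hMc c
    have h4 := hMc d
    have h5 : 0 ≤ ∑ j, |c j| + ∑ j, |d j| :=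
      add_nonneg (Finset.sum_nonneg fun _ _ => abs_nonneg _)
        (Finset.sum_nonneg fun _ _ => abs_nonneg _)
    have h6 : 2 * κ * (‖∑ j, c j • x j‖ + ‖∑ j, d j • x j‖) ≤
        1 / ((N : ℝ) + 1) / 2 * (∑ j, |c j| + ∑ j, |d j|) := by
      calc 2 * κ * (‖∑ j, c j • x j‖ + ‖∑ j, d j • x j‖)
          ≤ 2 * κ * (M * (∑ j, |c j| + ∑ j, |d j|)) := by
            apply mul_le_mul_of_nonneg_left _ (by positivity)
            rw [mul_add]
            exact add_le_add h3 h4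
        _ = (2 * κ * M) * (∑ j, |c j| + ∑ j, |d j|) := by ring
        _ ≤ _ := mul_le_mul_of_nonneg_right hκM h5
    linarith
  -- first exchange: x and u
  let v1 : Bool × Fin n → G := fun p => if p.1 then u p.2 else x p.2
  have hv1 : NearSym v1 (1 / ((N : ℝ) + 1) / 2) := by
    intro c
    rw [sum_bool, sum_bool, sum_bool_real (fun j => |c j|)]
    simp only [v1, swp, Bool.not_false, Bool.not_true, if_true]
    simp only [Bool.false_eq_true, if_false]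
    have h1 := (hc1 (fun j => c (true, j)) (fun j => c (false, j))).2
    have h2 := (hc1 (fun j => c (false, j)) (fun j => c (true, j))).1
    rw [add_comm (∑ j, c (false, j) • u j)]
    rw [add_comm (‖∑ j, c (true, j) • x j‖)] at h1
    exact hfinal _ _ _ _ h1 h2
  -- second exchange: u and g x
  let v2 : Bool × Fin n → G := fun p => if p.1 then g (x p.2) else u p.2
  have hv2 : NearSym v2 (1 / ((N : ℝ) + 1) / 2) := by
    intro c
    rw [sum_bool, sum_bool, sum_bool_real (fun j => |c j|)]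
    simp only [v2, swp, Bool.not_false, Bool.not_true, if_true]
    simp only [Bool.false_eq_true, if_false]
    have h1 := (hc2 (fun j => c (false, j)) (fun j => c (true, j))).2
    have h2 := (hc2 (fun j => c (true, j)) (fun j => c (false, j))).1
    rw [add_comm (∑ j, c (false, j) • u j)]
    rw [add_comm (‖∑ j, c (true, j) • x j‖)] at h2
    exact hfinal _ _ _ _ h1 h2
  obtain ⟨θ₁, hθ₁⟩ := exchange hy ρ hρ N v1 hv1
  obtain ⟨θ₂, hθ₂⟩ := exchange hy ρ hρ N v2 hv2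
  refine ⟨θ₂ * θ₁, fun z hz => ?_⟩
  obtain ⟨j, rfl⟩ := hx z hz
  have h1 : ‖ρ θ₁ (x j) - u j‖ ≤ 5 * (1 / ((N : ℝ) + 1)) := hθ₁ (false, j)
  have h2 : ‖ρ θ₂ (u j) - g (x j)‖ ≤ 5 * (1 / ((N : ℝ) + 1)) := hθ₂ (false, j)
  have h3 : ρ (θ₂ * θ₁) (x j) - g (x j)
      = ρ θ₂ (ρ θ₁ (x j) - u j) + (ρ θ₂ (u j) - g (x j)) := by
    rw [map_mul, map_sub]
    show ρ θ₂ (ρ θ₁ (x j)) - g (x j) = _
    abel
  rw [h3]
  refine (norm_add_le _ _).trans_lt ?_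
  rw [LinearIsometryEquiv.norm_map]
  linarith

end Pool.Agent.Lib.MP_dc9a2a_an
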