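import Pool.Agent.Lib.MP_dc9a2a_an.Tree

/-!
The space of bounded functions in which the given space is embedded, and in which the
permutations act.
-/

open scoped BoundedContinuousFunction

namespace Pool.Agent.Lib.MP_dc9a2a_an

variable {G : Type} [NormedAddCommGroup G] [NormedSpace ℝ G] {S : Type}

/-- Pairs of a family of functionals and a point, with the discrete topology. -/
def Idx (Ω : Set (S → (G →L[ℝ] ℝ))) : Type := Ω × S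

instance (Ω : Set (S → (G →L[ℝ] ℝ))) : TopologicalSpace (Idx Ω) := ⊥
instance (Ω : Set (S → (G →L[ℝ] ℝ))) : DiscreteTopology (Idx Ω) := ⟨rfl⟩

/-- The evaluation map, twisted by a permutation. -/
noncomputable def ev (Ω : Set (S → (G →L[ℝ] ℝ))) (hΩ : ∀ X ∈ Ω, ∀ s, ‖X s‖ ≤ 1)
    (q : Equiv.Perm S) : G →ₗ[ℝ] (Idx Ω →ᵇ ℝ) where
  toFun g := BoundedContinuousFunction.ofNormedAddCommGroupDiscrete
    (fun p : Idx Ω => p.1.1 (q⁻¹ p.2) g) ‖g‖ (fun p =>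
      (ContinuousLinearMap.le_opNorm _ g).trans
        (mul_le_of_le_one_left (norm_nonneg _) (hΩ p.1.1 p.1.2 _)))
  map_add' g g' := by
    ext p
    simp
  map_smul' c g := by
    ext p
    simp

theorem ev_apply {Ω : Set (S → (G →L[ℝ] ℝ))} (hΩ : ∀ X ∈ Ω, ∀ s, ‖X s‖ ≤ 1)
    (q : Equiv.Perm S) (g : G) (p : Idx Ω) : ev Ω hΩ q g p = p.1.1 (q⁻¹ p.2) g := rfl

theorem norm_ev_le {Ω : Set (S → (G →L[ℝ] ℝ))} (hΩ : ∀ X ∈ Ω, ∀ s, ‖X s‖ ≤ 1)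
    (q : Equiv.Perm S) (g : G) : ‖ev Ω hΩ q g‖ ≤ ‖g‖ := by
  rw [BoundedContinuousFunction.norm_le (norm_nonneg _)]
  intro p
  rw [ev_apply]
  exact (ContinuousLinearMap.le_opNorm _ g).trans
    (mul_le_of_le_one_left (norm_nonneg _) (hΩ p.1.1 p.1.2 _))

/-- The pair of a family and a point. -/
def mkIdx {Ω : Set (S → (G →L[ℝ] ℝ))} (X : Ω) (s : S) : Idx Ω := (X, s)

theorem ev_mk {Ω : Set (S → (G →L[ℝ] ℝ))} (hΩ : ∀ X ∈ Ω, ∀ s, ‖X s‖ ≤ 1)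
    (q : Equiv.Perm S) (g : G) (X : Ω) (s : S) :
    ev Ω hΩ q g (mkIdx X s) = X.1 (q⁻¹ s) g := rfl

theorem norm_sum_ev_le {Ω : Set (S → (G →L[ℝ] ℝ))} (hΩ : ∀ X ∈ Ω, ∀ s, ‖X s‖ ≤ 1)
    {P : Type} [Fintype P] (q : Equiv.Perm S) (r : P → Equiv.Perm S) (g : P → G) (c : P → ℝ) :
    ‖∑ p, c p • ev Ω hΩ (q * r p) (g p)‖ ≤ ‖∑ p, c p • ev Ω hΩ (r p) (g p)‖ := by
  rw [BoundedContinuousFunction.norm_le (norm_nonneg _)]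
  intro x
  have h1 : (∑ p, c p • ev Ω hΩ (q * r p) (g p)) x
      = (∑ p, c p • ev Ω hΩ (r p) (g p)) (mkIdx x.1 (q⁻¹ x.2)) := by
    rw [BoundedContinuousFunction.sum_apply, BoundedContinuousFunction.sum_apply]
    refine Finset.sum_congr rfl fun p _ => ?_
    rw [BoundedContinuousFunction.smul_apply, BoundedContinuousFunction.smul_apply, ev_mk,
      ev_apply, mul_inv_rev]
    rfl
  rw [h1]
  exact BoundedContinuousFunction.norm_coe_le_norm _ _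

theorem norm_ev_one {Ω : Set (S → (G →L[ℝ] ℝ))} (hΩ : ∀ X ∈ Ω, ∀ s, ‖X s‖ ≤ 1) (s₀ : S)
    (h₀ : ∀ χ : G →L[ℝ] ℝ, ‖χ‖ ≤ 1 → ∃ X ∈ Ω, X s₀ = χ) (g : G) : ‖ev Ω hΩ 1 g‖ = ‖g‖ := by
  refine le_antisymm (norm_ev_le hΩ 1 g) ?_
  obtain ⟨χ, hχ, hχg⟩ := exists_dual_vector'' ℝ g
  obtain ⟨X, hX, hXs⟩ := h₀ χ hχ
  have h1 := BoundedContinuousFunction.norm_coe_le_norm (ev Ω hΩ 1 g) (mkIdx ⟨X, hX⟩ s₀)
  rw [ev_mk] at h1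
  simp only [inv_one, Equiv.Perm.one_apply] at h1
  rw [hXs, hχg] at h1
  simpa using h1

/-- Two evaluations are close when all families in `Ω` are almost compatible. -/
theorem norm_ev_sub_le {Ω : Set (S → (G →L[ℝ] ℝ))} (hΩ : ∀ X ∈ Ω, ∀ s, ‖X s‖ ≤ 1)
    (q r : Equiv.Perm S) (g g' : G) {C : ℝ} (hC : 0 ≤ C)
    (h : ∀ X ∈ Ω, ∀ s, |X (q⁻¹ s) g - X (r⁻¹ s) g'| ≤ C) :
    ‖ev Ω hΩ q g - ev Ω hΩ r g'‖ ≤ C := by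
  rw [BoundedContinuousFunction.norm_le hC]
  intro p
  rw [BoundedContinuousFunction.sub_apply, ev_apply, ev_apply, Real.norm_eq_abs]
  exact h p.1.1 p.1.2 p.2

/-- Extension of the inverse of an embedding. -/
theorem realise_aux (hG : GurProp G) {B : Type} [NormedAddCommGroup B] [NormedSpace ℝ B]
    (J₀ : G →ₗᵢ[ℝ] B) (V : Submodule ℝ B) [FiniteDimensional ℝ V] {ε : ℝ} (hε : 0 < ε) :
    ∃ T : V →ₗ[ℝ] G, (∀ (g : G) (hg : J₀ g ∈ V), T ⟨J₀ g, hg⟩ = g) ∧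
      ∀ x : V, (1 - ε) * ‖x‖ ≤ ‖T x‖ ∧ ‖T x‖ ≤ (1 + ε) * ‖x‖ := by
  let E : Submodule ℝ V := (LinearMap.range J₀.toLinearMap).comap V.subtype
  let incl : E →ₗᵢ[ℝ] (LinearMap.range J₀.toLinearMap) :=
    ⟨(V.subtype ∘ₗ E.subtype).codRestrict (LinearMap.range J₀.toLinearMap) (fun e => e.2),
      fun e => rfl⟩
  let T₀ : E →ₗᵢ[ℝ] G := J₀.equivRange.symm.toLinearIsometry.comp incl
  obtain ⟨T, hT1, hT2⟩ := hG V E T₀ ε hε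
  refine ⟨T, fun g hg => ?_, hT2⟩
  have hmem : (⟨J₀ g, hg⟩ : V) ∈ E := ⟨g, rfl⟩
  have h1 := hT1 ⟨⟨J₀ g, hg⟩, hmem⟩
  rw [h1]
  show J₀.equivRange.symm (incl ⟨⟨J₀ g, hg⟩, hmem⟩) = g
  rw [LinearIsometryEquiv.symm_apply_eq]
  exact Subtype.ext rfl

/-- Realisation in the Gurarij space. -/
theorem realise (hG : GurProp G) [Finite S] {Ω : Set (S → (G →L[ℝ] ℝ))}
    (hΩ : ∀ X ∈ Ω, ∀ s, ‖X s‖ ≤ 1) (s₀ : S)
    (h₀ : ∀ χ : G →L[ℝ] ℝ, ‖χ‖ ≤ 1 → ∃ X ∈ Ω, X s₀ = χ) {N : Type} [Finite N] (w : N → G)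
    {ε : ℝ} (hε : 0 < ε) :
    ∃ (V : Submodule ℝ (Idx Ω →ᵇ ℝ)) (T : V →ₗ[ℝ] G) (hV : ∀ q n, ev Ω hΩ q (w n) ∈ V),
      (∀ n, T ⟨_, hV 1 n⟩ = w n) ∧
      ∀ x : V, (1 - ε) * ‖x‖ ≤ ‖T x‖ ∧ ‖T x‖ ≤ (1 + ε) * ‖x‖ := by
  let V : Submodule ℝ (Idx Ω →ᵇ ℝ) :=
    Submodule.span ℝ (Set.range (fun p : Equiv.Perm S × N => ev Ω hΩ p.1 (w p.2)))
  have hfin : FiniteDimensional ℝ V := FiniteDimensional.span_of_finite ℝ (Set.finite_range _)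
  have hV : ∀ q n, ev Ω hΩ q (w n) ∈ V := fun q n => Submodule.subset_span ⟨(q, n), rfl⟩
  let J₀ : G →ₗᵢ[ℝ] (Idx Ω →ᵇ ℝ) := ⟨ev Ω hΩ 1, norm_ev_one hΩ s₀ h₀⟩
  obtain ⟨T, hT1, hT2⟩ := realise_aux hG J₀ V hε
  exact ⟨V, T, hV, fun n => hT1 (w n) (hV 1 n), hT2⟩

end Pool.Agent.Lib.MP_dc9a2a_an
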