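import Mathlib

/-!
A Hahn-Banach type lemma with tolerance, and the almost isometric extension property.
-/

namespace Pool.Agent.Lib.MP_dc9a2a_an

/-- The extension property defining the Gurarij space. -/
def GurProp (G : Type) [NormedAddCommGroup G] [NormedSpace ℝ G] : Prop :=
  ∀ (F : Type) [NormedAddCommGroup F] [NormedSpace ℝ F] [FiniteDimensional ℝ F]
    (E : Submodule ℝ F) (T : E →ₗᵢ[ℝ] G) (ε : ℝ), 0 < ε →
    ∃ S : F →ₗ[ℝ] G, (∀ x : E, S (x : F) = T x) ∧
      ∀ x : F, (1 - ε) * ‖x‖ ≤ ‖S x‖ ∧ ‖S x‖ ≤ (1 + ε) * ‖x‖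

variable {E : Type*} [NormedAddCommGroup E] [NormedSpace ℝ E]

theorem exists_shift {I : Type*} [Fintype I] (u v : I → E) {δ : ℝ} (hδ : 0 ≤ δ)
    (h : ∀ c : I → ℝ, ‖∑ i, c i • v i‖ ≤ ‖∑ i, c i • u i‖ + δ * ∑ i, |c i|)
    (β : E →L[ℝ] ℝ) (hβ : ‖β‖ ≤ 1) :
    ∃ β' : E →L[ℝ] ℝ, ‖β'‖ ≤ 1 ∧ ∀ i, |β' (u i) - β (v i)| ≤ δ := by
  classical
  -- the linear map `c ↦ (∑ c i u i, c)`
  let P : (I → ℝ) →ₗ[ℝ] E × (I → ℝ) :=
    LinearMap.prod (∑ i, (LinearMap.proj i : (I → ℝ) →ₗ[ℝ] ℝ).smulRight (u i)) LinearMap.id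
  have hP : ∀ c, P c = (∑ i, c i • u i, c) := by
    intro c
    simp [P]
  let f₀ : E × (I → ℝ) →ₗ[ℝ] ℝ :=
    (∑ i, (LinearMap.proj i : (I → ℝ) →ₗ[ℝ] ℝ).smulRight (β (v i))) ∘ₗ LinearMap.snd ℝ E (I → ℝ)
  have hf₀ : ∀ x, f₀ x = ∑ i, x.2 i * β (v i) := by
    intro x
    simp [f₀]
  let N : E × (I → ℝ) → ℝ := fun x => ‖x.1‖ + δ * ∑ i, |x.2 i|
  obtain ⟨g, hg1, hg2⟩ := exists_extension_of_le_sublinear
    (f₀.toPMap (LinearMap.range P)) N
    (by
      intro c hc x
      simp only [N, Prod.smul_fst, Prod.smul_snd, norm_smul, Pi.smul_apply, smul_eq_mul, abs_mul,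
        Real.norm_eq_abs, abs_of_pos hc, ← Finset.mul_sum]
      ring)
    (by
      intro x y
      simp only [N, Prod.fst_add, Prod.snd_add, Pi.add_apply]
      have h1 := norm_add_le x.1 y.1
      have h2 : ∑ i, |x.2 i + y.2 i| ≤ ∑ i, |x.2 i| + ∑ i, |y.2 i| := by
        rw [← Finset.sum_add_distrib]
        exact Finset.sum_le_sum fun i _ => abs_add_le _ _
      nlinarith [mul_le_mul_of_nonneg_left h2 hδ])
    (by
      rintro ⟨x, hx⟩
      obtain ⟨c, rfl⟩ := hx
      change f₀ (P c) ≤ N (P c)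
      rw [hf₀, hP]
      simp only [N]
      refine le_trans ?_ (h c)
      have h1 : ∑ i, c i * β (v i) = β (∑ i, c i • v i) := by
        simp [map_sum]
      rw [h1]
      refine (le_abs_self _).trans ?_
      rw [← Real.norm_eq_abs]
      refine (β.le_opNorm _).trans ?_
      exact mul_le_of_le_one_left (norm_nonneg _) hβ)
  have hb : ∀ e : E, |g (e, 0)| ≤ ‖e‖ := by
    intro e
    rw [abs_le]
    constructor
    · have h1 := hg2 (-e, 0)
      have h2 : g (-e, 0) = - g (e, 0) := by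
        rw [← map_neg]
        simp
      rw [h2] at h1
      simp only [N] at h1
      simp at h1
      linarith
    · have h1 := hg2 (e, 0)
      simp only [N] at h1
      simpa using h1
  let β' : E →L[ℝ] ℝ := LinearMap.mkContinuous (g ∘ₗ LinearMap.inl ℝ E (I → ℝ)) 1 (by
    intro e
    rw [one_mul]
    simpa using hb e)
  have hβ' : ∀ e, β' e = g (e, 0) := fun e => rfl
  refine ⟨β', LinearMap.mkContinuous_norm_le _ zero_le_one _, fun i => ?_⟩
  have h1 : g (u i, Pi.single i 1) = β (v i) := by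
    have h2 : g (P (Pi.single i 1)) = f₀ (P (Pi.single i 1)) :=
      hg1 ⟨P (Pi.single i 1), LinearMap.mem_range_self _ _⟩
    rw [hf₀, hP] at h2
    simpa [Pi.single_apply, ite_smul] using h2
  have h3 : g (u i, Pi.single i 1) = g (u i, 0) + g (0, Pi.single i 1) := by
    rw [← map_add]
    simp
  have h4 : β' (u i) - β (v i) = - g (0, Pi.single i 1) := by
    rw [hβ', ← h1, h3]
    ring
  have hsum : ∑ j, |(Pi.single i (1 : ℝ) : I → ℝ) j| = 1 := by
    rw [Finset.sum_eq_single i]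
    · simp
    · intro j _ hj
      simp [hj]
    · simp
  rw [h4, abs_neg, abs_le]
  constructor
  · have h5 := hg2 (0, -Pi.single i 1)
    have h6 : g (0, -Pi.single i 1) = - g (0, Pi.single i 1) := by
      rw [← map_neg]
      simp
    rw [h6] at h5
    simp only [N, norm_zero, zero_add, Pi.neg_apply, abs_neg] at h5
    rw [hsum] at h5
    linarith
  · have h5 := hg2 (0, Pi.single i 1)
    simp only [N, norm_zero, zero_add] at h5
    rw [hsum] at h5
    linarith

end Pool.Agent.Lib.MP_dc9a2a_an
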