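import Pool.Agent.Lib.MP_dc9a2a_an.Step

/-!
The limit of the extension steps.
-/

open Filter Topology

namespace Pool.Agent.Lib.MP_dc9a2a_an

variable {G : Type} [NormedAddCommGroup G] [NormedSpace ℝ G]

theorem exists_isometry [CompleteSpace G] {K : Type} (ζ ζ' : K → G)
    (hd : DenseRange (Finsupp.linearCombination ℝ ζ))
    (h : ∀ c : K →₀ ℝ,
      ‖Finsupp.linearCombination ℝ ζ' c‖ = ‖Finsupp.linearCombination ℝ ζ c‖) :
    ∃ U : G →ₗᵢ[ℝ] G, ∀ κ, U (ζ κ) = ζ' κ := by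
  let U := (Finsupp.linearCombination ℝ ζ').extendOfNorm (Finsupp.linearCombination ℝ ζ)
  have hU : ∀ c, U (Finsupp.linearCombination ℝ ζ c) = Finsupp.linearCombination ℝ ζ' c :=
    fun c => LinearMap.extendOfNorm_eq hd ⟨1, fun c => by rw [one_mul, h]⟩ c
  refine ⟨⟨U.toLinearMap, ?_⟩, fun κ => ?_⟩
  · intro x
    refine isClosed_property hd (p := fun x => ‖U x‖ = ‖x‖) ?_ ?_ x
    · exact isClosed_eq (by fun_prop) (by fun_prop)
    · intro c
      rw [hU, h]
  · have := hU (Finsupp.single κ 1)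
    simpa using this

theorem exists_action [CompleteSpace G] {Θ : Type} [Group Θ] (ζ : Θ → ℕ → G)
    (hd : DenseRange (ζ 1))
    (hinv : ∀ (P : Type) [Fintype P] (θ : Θ) (τ : P → Θ) (i : P → ℕ) (c : P → ℝ),
      ‖∑ p, c p • ζ (θ * τ p) (i p)‖ ≤ ‖∑ p, c p • ζ (τ p) (i p)‖) :
    ∃ ρ : Θ →* (G ≃ₗᵢ[ℝ] G), ∀ θ τ i, ρ θ (ζ τ i) = ζ (θ * τ) i := by
  classical
  have hd' : DenseRange (Finsupp.linearCombination ℝ (fun κ : Θ × ℕ => ζ κ.1 κ.2)) := by
    refine Dense.mono ?_ hd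
    rintro _ ⟨i, rfl⟩
    exact ⟨Finsupp.single (1, i) 1, by simp⟩
  have hex : ∀ θ : Θ, ∃ U : G →ₗᵢ[ℝ] G, ∀ κ : Θ × ℕ, U (ζ κ.1 κ.2) = ζ (θ * κ.1) κ.2 := by
    intro θ
    apply exists_isometry _ _ hd'
    intro c
    have e1 : ∀ v : Θ × ℕ → G, Finsupp.linearCombination ℝ v c
        = ∑ p : c.support, c p.1 • v p.1 := by
      intro v
      rw [Finsupp.linearCombination_apply, Finsupp.sum]
      exact (Finset.sum_coe_sort c.support (fun κ => c κ • v κ)).symm
    rw [e1, e1]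
    apply le_antisymm
    · exact hinv c.support θ (fun p => p.1.1) (fun p => p.1.2) (fun p => c p.1)
    · have := hinv c.support θ⁻¹ (fun p => θ * p.1.1) (fun p => p.1.2) (fun p => c p.1)
      simpa using this
  choose U hU using hex
  have heq : ∀ f g : G →ₗᵢ[ℝ] G, (∀ i, f (ζ 1 i) = g (ζ 1 i)) → ∀ x, f x = g x := by
    intro f g h x
    have h1 := hd.equalizer f.continuous g.continuous (funext h)
    exact congrFun h1 x
  have hmul : ∀ θ τ x, U (θ * τ) x = U θ (U τ x) := by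
    intro θ τ x
    refine heq (U (θ * τ)) ((U θ).comp (U τ)) ?_ x
    intro i
    show U (θ * τ) (ζ 1 i) = U θ (U τ (ζ 1 i))
    rw [hU (θ * τ) (1, i), hU τ (1, i), hU θ (τ * 1, i)]
    simp
  have hone : ∀ x, U 1 x = x := by
    intro x
    refine heq (U 1) LinearIsometry.id ?_ x
    intro i
    rw [hU 1 (1, i)]
    simp
  let e : Θ → (G ≃ₗᵢ[ℝ] G) := fun θ =>
    { toLinearEquiv := LinearEquiv.ofLinearMap (U θ).toLinearMap (U θ⁻¹).toLinearMap
        (by
          ext x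
          show U θ (U θ⁻¹ x) = x
          rw [← hmul, mul_inv_cancel, hone])
        (by
          ext x
          show U θ⁻¹ (U θ x) = x
          rw [← hmul, inv_mul_cancel, hone])
      norm_map' := fun x => (U θ).norm_map x }
  have he : ∀ θ x, e θ x = U θ x := fun θ x => rfl
  refine ⟨{ toFun := e, map_one' := ?_, map_mul' := ?_ }, ?_⟩
  · ext x
    rw [he, hone]
    rfl
  · intro θ τ
    ext x
    rw [he, hmul]
    rfl
  · intro θ τ i
    exact hU θ (τ, i)

/-- The states of the construction. -/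
structure St (y : ℕ → G) (m : ℕ) where
  /-- the group -/
  H : Type
  /-- its group structure -/
  grp : Group H
  /-- it is finite -/
  fin : Finite H
  /-- the vectors -/
  z : H → ℕ → G
  /-- the neutral element gives the sequence `y` -/
  z1 : ∀ i, z 1 i = y i
  /-- almost invariance -/
  inv : Inv z m ((1 / 2 : ℝ) ^ m)

attribute [instance] St.grp St.fin

/-- A task: indices of vectors to be exchanged, and a precision. -/
abbrev Task : Type := (Σ n : ℕ, (Bool × Fin n → ℕ)) × ℕ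

/-- Exchange of the two halves. -/
def swp {n : ℕ} (p : Bool × Fin n) : Bool × Fin n := (!p.1, p.2)

theorem swp_swp {n : ℕ} : Function.Involutive (swp (n := n)) := by
  intro p
  simp [swp]

/-- The precision of a task. -/
noncomputable def prec (τ : Task) : ℝ := 1 / ((τ.2 : ℝ) + 1)

theorem prec_pos (τ : Task) : 0 < prec τ := by unfold prec; positivity

/-- The symmetry condition of a task. -/
def Sym (y : ℕ → G) (τ : Task) : Prop :=
  ∀ c : Bool × Fin τ.1.1 → ℝ, ‖∑ j, c j • y (τ.1.2 (swp j))‖ ≤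
    ‖∑ j, c j • y (τ.1.2 j)‖ + prec τ * ∑ j, |c j|

theorem next_exists (hG : GurProp G) (y : ℕ → G) (f : ℕ → Task) (m : ℕ) (s : St y m) :
    ∃ (s' : St y (m + 1)) (ι : s.H →* s'.H),
      (∀ h, ∀ i < m, ‖s'.z (ι h) i - s.z h i‖ ≤ 3 * (1 / 2) ^ m) ∧
      ((∀ j, (f m).1.2 j < m + 1) → Sym y (f m) → ∃ t : s'.H, ∀ j,
        ‖s'.z t ((f m).1.2 j) - y ((f m).1.2 (swp j))‖ ≤ 3 * prec (f m)) := by
  by_cases hcond : (∀ j, (f m).1.2 j < m + 1) ∧ Sym y (f m)
  · obtain ⟨H', g', f', ι, z', h1, h2, h3, t, h4⟩ := step hG y s.z s.z1 m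
      (δ := (1 / 2 : ℝ) ^ m) (by positivity) s.inv (m + 1) (by omega)
      (δ' := (1 / 2 : ℝ) ^ (m + 1)) (by positivity) (f m).1.2 hcond.1 swp swp_swp
      (prec_pos (f m)) hcond.2
    exact ⟨⟨H', g', f', z', h1, h2⟩, ι, h3, fun _ _ => ⟨t, h4⟩⟩
  · obtain ⟨H', g', f', ι, z', h1, h2, h3, t, h4⟩ := step hG y s.z s.z1 m
      (δ := (1 / 2 : ℝ) ^ m) (by positivity) s.inv (m + 1) (by omega)
      (δ' := (1 / 2 : ℝ) ^ (m + 1)) (by positivity) (J := Empty) (fun j => j.elim)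
      (fun j => j.elim) id (fun j => rfl) (η := 1) one_pos (by simp)
    exact ⟨⟨H', g', f', z', h1, h2⟩, ι, h3, fun a b => absurd ⟨a, b⟩ hcond⟩

theorem dep_choice {α : ℕ → Type*} (a0 : α 0) (R : ∀ m, α m → α (m + 1) → Prop)
    (h : ∀ m a, ∃ b, R m a b) : ∃ s : ∀ m, α m, ∀ m, R m (s m) (s (m + 1)) := by
  choose nx hnx using h
  exact ⟨fun m => Nat.rec a0 (fun m a => nx m a) m, fun m => hnx m _⟩

/-- The initial state. -/
noncomputable def St.init (y : ℕ → G) : St y 0 where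
  H := Unit
  grp := inferInstance
  fin := inferInstance
  z := fun _ i => y i
  z1 := fun _ => rfl
  inv := by
    intro P _ q h i c hi
    have : 0 ≤ (1 / 2 : ℝ) ^ 0 * ∑ p, |c p| := by positivity
    linarith

end Pool.Agent.Lib.MP_dc9a2a_an
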