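import Pool.Agent.Lib.MP_dc9a2a_an.Eval

/-!
The extension step.
-/

open scoped BoundedContinuousFunction

namespace Pool.Agent.Lib.MP_dc9a2a_an

variable {G : Type} [NormedAddCommGroup G] [NormedSpace ℝ G]

/-- Invariance up to an additive error. -/
def Inv {H : Type} [Group H] (z : H → ℕ → G) (k : ℕ) (δ : ℝ) : Prop :=
  ∀ (P : Type) [Fintype P] (q : H) (h : P → H) (i : P → ℕ) (c : P → ℝ), (∀ p, i p < k) →
    ‖∑ p, c p • z (q * h p) (i p)‖ ≤ ‖∑ p, c p • z (h p) (i p)‖ + δ * ∑ p, |c p|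

theorem step (hG : GurProp G) (y : ℕ → G) {H : Type} [Group H] [Finite H] (z : H → ℕ → G)
    (hz1 : ∀ i, z 1 i = y i) (k : ℕ) {δ : ℝ} (hδ : 0 < δ) (hinv : Inv z k δ)
    (k' : ℕ) (hkk' : k ≤ k') {δ' : ℝ} (hδ' : 0 < δ')
    {J : Type} [Fintype J] (a : J → ℕ) (ha : ∀ j, a j < k') (σ : J → J)
    (hσ : Function.Involutive σ) {η : ℝ} (hη : 0 < η)
    (hsym : ∀ c : J → ℝ, ‖∑ j, c j • y (a (σ j))‖ ≤ ‖∑ j, c j • y (a j)‖ + η * ∑ j, |c j|) :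
    ∃ (H' : Type) (_ : Group H') (_ : Finite H') (ι : H →* H') (z' : H' → ℕ → G),
      (∀ i, z' 1 i = y i) ∧ Inv z' k' δ' ∧
      (∀ h, ∀ i < k, ‖z' (ι h) i - z h i‖ ≤ 3 * δ) ∧
      ∃ t : H', ∀ j, ‖z' t (a j) - y (a (σ j))‖ ≤ 3 * η := by
  classical
  have := Fintype.ofFinite H
  -- the shift operators
  have hexSh : ∀ (g : H) (β : G →L[ℝ] ℝ), ∃ β' : G →L[ℝ] ℝ, (g = 1 → β' = β) ∧
      (‖β‖ ≤ 1 → ‖β'‖ ≤ 1 ∧ ∀ h i, i < k → |β' (z h i) - β (z (g * h) i)| ≤ δ) := by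
    intro g β
    by_cases hg : g = 1
    · subst hg
      exact ⟨β, fun _ => rfl, fun hβ => ⟨hβ, fun h i _ => by simp [hδ.le]⟩⟩
    · by_cases hβ : ‖β‖ ≤ 1
      · obtain ⟨β', h1, h2⟩ := exists_shift (fun p : H × Fin k => z p.1 p.2)
          (fun p : H × Fin k => z (g * p.1) p.2) hδ.le
          (fun c => hinv (H × Fin k) g (fun p => p.1) (fun p => p.2) c (fun p => p.2.2)) β hβ
        exact ⟨β', fun h => absurd h hg, fun _ => ⟨h1, fun h i hi => h2 (h, ⟨i, hi⟩)⟩⟩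
      · exact ⟨β, fun h => absurd h hg, fun h => absurd h hβ⟩
  choose Sh hSh1 hSh2 using hexSh
  have hexSw : ∀ (β : G →L[ℝ] ℝ), ∃ β' : G →L[ℝ] ℝ,
      (‖β‖ ≤ 1 → ‖β'‖ ≤ 1 ∧ ∀ j, |β' (y (a j)) - β (y (a (σ j)))| ≤ η) := by
    intro β
    by_cases hβ : ‖β‖ ≤ 1
    · obtain ⟨β', h1, h2⟩ := exists_shift (fun j => y (a j)) (fun j => y (a (σ j))) hη.le hsym β hβ
      exact ⟨β', fun _ => ⟨h1, h2⟩⟩
    · exact ⟨β, fun h => absurd h hβ⟩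
  choose Sw hSw using hexSw
  -- the radius
  obtain ⟨R, hR1, hR2⟩ : ∃ R : ℕ, 1 ≤ R ∧ ∀ j, ‖y (a j)‖ ≤ η * R := by
    obtain ⟨R, hR⟩ := exists_nat_ge ((∑ j, ‖y (a j)‖) / η)
    refine ⟨R + 1, by omega, fun j => ?_⟩
    have h1 : ‖y (a j)‖ ≤ ∑ j, ‖y (a j)‖ :=
      Finset.single_le_sum (f := fun j => ‖y (a j)‖) (fun j _ => norm_nonneg _)
        (Finset.mem_univ j)
    rw [div_le_iff₀ hη] at hR
    push_cast
    nlinarith
  -- the admissible families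
  let Ω : Set (Wds H R → (G →L[ℝ] ℝ)) := {X | (∀ s, ‖X s‖ ≤ 1) ∧
    (∀ s (h : H) (i : ℕ), i < k → |X ((hperm R h)⁻¹ s) (y i) - X s (z h i)| ≤ 2 * δ) ∧
    (∀ s j, |X (tperm R hR1 s) (y (a j)) - X s (y (a (σ j)))| ≤ 2 * η)}
  have hΩ : ∀ X ∈ Ω, ∀ s, ‖X s‖ ≤ 1 := fun X hX => hX.1
  have hfam : ∀ χ : G →L[ℝ] ℝ, ‖χ‖ ≤ 1 → ∃ X ∈ Ω, X (root H R) = χ := by
    intro χ hχ
    obtain ⟨X, h1, h2, h3, h4⟩ := family k z hδ.le hη.le (fun j => y (a j))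
      (fun j => y (a (σ j))) Sh Sw χ hχ (fun β => hSh1 1 β rfl)
      (fun β hβ g => (hSh2 g β hβ).1) (fun β hβ g => (hSh2 g β hβ).2)
      (fun β hβ => (hSw β hβ).1) (fun β hβ => (hSw β hβ).2)
      (fun β hβ j => by
        have := (hSw β hβ).2 (σ j)
        rw [hσ j] at this
        exact this) R hR1 hR2
    refine ⟨X, ⟨h1, ?_, h4⟩, h2⟩
    intro s h i hi
    have := h3 s h i hi
    rwa [hz1] at this
  -- the precision
  set M : ℝ := ∑ i ∈ Finset.range k', ‖y i‖ with hM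
  have hM0 : 0 ≤ M := Finset.sum_nonneg fun _ _ => norm_nonneg _
  have hMi : ∀ i < k', ‖y i‖ ≤ M := fun i hi =>
    Finset.single_le_sum (f := fun i => ‖y i‖) (fun _ _ => norm_nonneg _) (Finset.mem_range.2 hi)
  obtain ⟨ε, hε0, hε1, hε2⟩ : ∃ ε : ℝ, 0 < ε ∧ ε ≤ 1 / 2 ∧ 2 * ε * M ≤ δ' := by
    refine ⟨min (1 / 2) (δ' / (2 * (M + 1))), by positivity, min_le_left _ _, ?_⟩
    have h1 : min (1 / 2) (δ' / (2 * (M + 1))) ≤ δ' / (2 * (M + 1)) := min_le_right _ _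
    calc 2 * min (1 / 2) (δ' / (2 * (M + 1))) * M ≤ 2 * (δ' / (2 * (M + 1))) * M := by gcongr
      _ = δ' * (M / (M + 1)) := by field_simp
      _ ≤ δ' * 1 := by
          apply mul_le_mul_of_nonneg_left _ hδ'.le
          rw [div_le_one (by positivity)]
          linarith
      _ = δ' := mul_one _
  -- the vectors
  let w : (Fin k' ⊕ (H × Fin k)) → G := Sum.elim (fun i => y i) (fun p => z p.1 p.2)
  obtain ⟨V, T, hV, hT1, hT2⟩ := realise hG hΩ (root H R) hfam w hε0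
  have hTu : ∀ x : V, ‖T x‖ ≤ (1 + ε) * ‖x‖ := fun x => (hT2 x).2
  have hTl : ∀ x : V, (1 - ε) * ‖x‖ ≤ ‖T x‖ := fun x => (hT2 x).1
  have hVy : ∀ q i, i < k' → ev Ω hΩ q (y i) ∈ V := fun q i hi => hV q (Sum.inl ⟨i, hi⟩)
  have hVz : ∀ q h i, i < k → ev Ω hΩ q (z h i) ∈ V := fun q h i hi => hV q (Sum.inr (h, ⟨i, hi⟩))
  have hTy : ∀ i (hi : i < k'), T ⟨_, hVy 1 i hi⟩ = y i := fun i hi => hT1 (Sum.inl ⟨i, hi⟩)
  have hTz : ∀ h i (hi : i < k), T ⟨_, hVz 1 h i hi⟩ = z h i :=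
    fun h i hi => hT1 (Sum.inr (h, ⟨i, hi⟩))
  let z' : Equiv.Perm (Wds H R) → ℕ → G := fun q i =>
    if hi : i < k' then T ⟨_, hVy q i hi⟩ else y i
  have hz' : ∀ q i (hi : i < k'), z' q i = T ⟨_, hVy q i hi⟩ := fun q i hi => dif_pos hi
  refine ⟨Equiv.Perm (Wds H R), inferInstance, inferInstance, hperm R, z', ?_, ?_, ?_,
    tperm R hR1, ?_⟩
  · intro i
    by_cases hi : i < k'
    · rw [hz' 1 i hi]
      exact hTy i hi
    · exact dif_neg hi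
  · intro P _ q r i c hi
    -- express both sums through `T`
    have hsum : ∀ q : P → Equiv.Perm (Wds H R), ∃ hmem : ∑ p, c p • ev Ω hΩ (q p) (y (i p)) ∈ V,
        ∑ p, c p • z' (q p) (i p) = T ⟨∑ p, c p • ev Ω hΩ (q p) (y (i p)), hmem⟩ := by
      intro q
      have hmem : ∑ p, c p • ev Ω hΩ (q p) (y (i p)) ∈ V :=
        Submodule.sum_mem _ fun p _ => Submodule.smul_mem _ _ (hVy _ _ (hi p))
      refine ⟨hmem, ?_⟩
      have h1 : (⟨∑ p, c p • ev Ω hΩ (q p) (y (i p)), hmem⟩ : V)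
          = ∑ p, c p • (⟨_, hVy (q p) (i p) (hi p)⟩ : V) := by
        apply Subtype.ext
        simp
      rw [h1, map_sum]
      refine Finset.sum_congr rfl fun p _ => ?_
      rw [map_smul, hz' _ _ (hi p)]
    obtain ⟨m1, e1⟩ := hsum (fun p => q * r p)
    obtain ⟨m2, e2⟩ := hsum r
    rw [e1, e2]
    set N : ℝ := ‖∑ p, c p • ev Ω hΩ (r p) (y (i p))‖ with hN
    have hN1 : ‖∑ p, c p • ev Ω hΩ (q * r p) (y (i p))‖ ≤ N :=
      norm_sum_ev_le hΩ q r (fun p => y (i p)) c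
    have hN2 : N ≤ M * ∑ p, |c p| := by
      rw [hN, Finset.mul_sum]
      refine (norm_sum_le _ _).trans (Finset.sum_le_sum fun p _ => ?_)
      rw [norm_smul, Real.norm_eq_abs, mul_comm]
      exact mul_le_mul_of_nonneg_right ((norm_ev_le hΩ _ _).trans (hMi _ (hi p))) (abs_nonneg _)
    have hN0 : 0 ≤ N := norm_nonneg _
    have hc0 : 0 ≤ ∑ p, |c p| := Finset.sum_nonneg fun _ _ => abs_nonneg _
    have h3 := hTu ⟨_, m1⟩
    have h4 := hTl ⟨_, m2⟩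
    have h3' : ‖T ⟨_, m1⟩‖ ≤ (1 + ε) * N := h3.trans (mul_le_mul_of_nonneg_left hN1 (by linarith))
    have h4' : (1 - ε) * N ≤ ‖T ⟨_, m2⟩‖ := h4
    have h5 : 2 * ε * N ≤ δ' * ∑ p, |c p| := by
      calc 2 * ε * N ≤ 2 * ε * (M * ∑ p, |c p|) := by gcongr
        _ = (2 * ε * M) * ∑ p, |c p| := by ring
        _ ≤ δ' * ∑ p, |c p| := mul_le_mul_of_nonneg_right hε2 hc0
    linarith
  · intro h i hi
    have hi' : i < k' := lt_of_lt_of_le hi hkk'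
    rw [hz' _ i hi', ← hTz h i hi, ← map_sub]
    refine (hTu _).trans ?_
    have h1 : ‖ev Ω hΩ (hperm R h) (y i) - ev Ω hΩ 1 (z h i)‖ ≤ 2 * δ := by
      refine norm_ev_sub_le hΩ _ _ _ _ (by positivity) fun X hX s => ?_
      have := hX.2.1 s h i hi
      simpa using this
    have h2 : ‖(⟨_, hVy (hperm R h) i hi'⟩ : V) - ⟨_, hVz 1 h i hi⟩‖ ≤ 2 * δ := h1
    calc (1 + ε) * ‖(⟨_, hVy (hperm R h) i hi'⟩ : V) - ⟨_, hVz 1 h i hi⟩‖
        ≤ (1 + 1 / 2) * (2 * δ) := by gcongr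
      _ = 3 * δ := by ring
  · intro j
    rw [hz' _ _ (ha j), ← hTy _ (ha (σ j)), ← map_sub]
    refine (hTu _).trans ?_
    have h1 : ‖ev Ω hΩ (tperm R hR1) (y (a j)) - ev Ω hΩ 1 (y (a (σ j)))‖ ≤ 2 * η := by
      refine norm_ev_sub_le hΩ _ _ _ _ (by positivity) fun X hX s => ?_
      have := hX.2.2 s j
      have e : (tperm R hR1 : Equiv.Perm (Wds H R))⁻¹ = tperm R hR1 := rfl
      rw [e]
      simpa using this
    have h2 : ‖(⟨_, hVy (tperm R hR1) (a j) (ha j)⟩ : V) - ⟨_, hVy 1 _ (ha (σ j))⟩‖ ≤ 2 * η := h1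
    calc (1 + ε) * ‖(⟨_, hVy (tperm R hR1) (a j) (ha j)⟩ : V) - ⟨_, hVy 1 _ (ha (σ j))⟩‖
        ≤ (1 + 1 / 2) * (2 * η) := by gcongr
      _ = 3 * η := by ring

end Pool.Agent.Lib.MP_dc9a2a_an
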