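import Pool.Agent.Lib.MP_dc9a2a_an.HB

/-!
The finite set of words on which a finite group and an involution act.
-/

namespace Pool.Agent.Lib.MP_dc9a2a_an

variable {H : Type} [Group H]

open Classical in
/-- The involution on words. -/
noncomputable def tmap (R : ℕ) : List H → List H
  | [] => []
  | [a] => [1, a]
  | (a :: b :: L) =>
    if a = 1 then b :: L else if L.length + 2 ≤ R then 1 :: a :: b :: L else a :: b :: L

/-- Left multiplication of the first letter. -/
def hmap (h : H) : List H → List H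
  | [] => []
  | (a :: L) => (h * a) :: L

/-- The words we consider: nonempty, at most `R + 1` letters, with interior letters not one. -/
def Wd (R : ℕ) (l : List H) : Prop :=
  l ≠ [] ∧ l.length ≤ R + 1 ∧ ∀ a ∈ l.tail.dropLast, a ≠ 1

theorem hmap_wd {R : ℕ} {l : List H} (h : H) (hl : Wd R l) : Wd R (hmap h l) := by
  obtain ⟨h1, h2, h3⟩ := hl
  cases l with
  | nil => exact absurd rfl h1
  | cons a L => exact ⟨by simp [hmap], by simpa [hmap] using h2, by simpa [hmap] using h3⟩

theorem hmap_one (l : List H) : hmap 1 l = l := by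
  cases l <;> simp [hmap]

theorem hmap_mul (g h : H) (l : List H) : hmap (g * h) l = hmap g (hmap h l) := by
  cases l <;> simp [hmap, mul_assoc]

theorem tmap_wd {R : ℕ} (hR : 1 ≤ R) {l : List H} (hl : Wd R l) : Wd R (tmap R l) := by
  obtain ⟨h1, h2, h3⟩ := hl
  match l, h1, h2, h3 with
  | [a], _, _, _ => exact ⟨by simp [tmap], by simp [tmap]; omega, by simp [tmap]⟩
  | (a :: b :: L), _, h2, h3 =>
    simp only [tmap]
    split_ifs with ha hL
    · refine ⟨by simp, by simp at h2 ⊢; omega, ?_⟩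
      intro c hc
      apply h3
      cases L with
      | nil => simp at hc
      | cons d L =>
        simp only [List.tail_cons] at hc ⊢
        rw [List.dropLast_cons_of_ne_nil (by simp)]
        exact List.mem_cons_of_mem _ hc
    · refine ⟨by simp, by simp at h2 ⊢; omega, ?_⟩
      intro c hc
      simp only [List.tail_cons] at hc h3
      rw [List.dropLast_cons_of_ne_nil (by simp)] at hc
      rcases List.mem_cons.1 hc with rfl | hc
      · exact ha
      · exact h3 c hc
    · exact ⟨by simp, h2, h3⟩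

theorem tmap_tmap {R : ℕ} {l : List H} (hl : Wd R l) : tmap R (tmap R l) = l := by
  obtain ⟨h1, h2, h3⟩ := hl
  match l, h1, h2, h3 with
  | [a], _, _, _ => simp [tmap]
  | (a :: b :: L), _, h2, h3 =>
    by_cases ha : a = 1
    · subst ha
      have e1 : tmap R (1 :: b :: L) = b :: L := by simp [tmap]
      rw [e1]
      cases L with
      | nil => simp [tmap]
      | cons d L =>
        have hb : b ≠ 1 := h3 b (by simp)
        have hlen : L.length + 2 ≤ R := by simp at h2; omega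
        simp [tmap, hb, hlen]
    · by_cases hL : L.length + 2 ≤ R
      · have e1 : tmap R (a :: b :: L) = 1 :: a :: b :: L := by simp [tmap, ha, hL]
        rw [e1]
        simp [tmap]
      · have e1 : tmap R (a :: b :: L) = a :: b :: L := by simp [tmap, ha, hL]
        rw [e1, e1]

/-- The finite set of words. -/
def Wds (H : Type) [Group H] (R : ℕ) : Type := {l : List H // Wd R l}

instance (R : ℕ) [Finite H] : Finite (Wds H R) :=
  ((List.finite_length_le H (R + 1)).subset (fun _ hl => hl.2.1)).to_subtype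

/-- The involution as a permutation. -/
noncomputable def tperm (R : ℕ) (hR : 1 ≤ R) : Equiv.Perm (Wds H R) where
  toFun s := ⟨tmap R s.1, tmap_wd hR s.2⟩
  invFun s := ⟨tmap R s.1, tmap_wd hR s.2⟩
  left_inv s := Subtype.ext (tmap_tmap s.2)
  right_inv s := Subtype.ext (tmap_tmap s.2)

/-- The action of the group by permutations. -/
def hperm (R : ℕ) : H →* Equiv.Perm (Wds H R) where
  toFun h :=
    { toFun := fun s => ⟨hmap h s.1, hmap_wd h s.2⟩
      invFun := fun s => ⟨hmap h⁻¹ s.1, hmap_wd h⁻¹ s.2⟩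
      left_inv := fun s => Subtype.ext (by
        show hmap h⁻¹ (hmap h s.1) = s.1
        rw [← hmap_mul, inv_mul_cancel, hmap_one])
      right_inv := fun s => Subtype.ext (by
        show hmap h (hmap h⁻¹ s.1) = s.1
        rw [← hmap_mul, mul_inv_cancel, hmap_one]) }
  map_one' := by
    ext s
    exact Subtype.ext (hmap_one s.1)
  map_mul' g h := by
    ext s
    exact Subtype.ext (hmap_mul g h s.1)

/-- The word with one letter `1`. -/
def root (H : Type) [Group H] (R : ℕ) : Wds H R := ⟨[1], by simp, by simp, by simp⟩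

variable {G : Type} [NormedAddCommGroup G] [NormedSpace ℝ G]

/-- The family of functionals, without weights. -/
noncomputable def xfun (Sh : H → (G →L[ℝ] ℝ) → (G →L[ℝ] ℝ)) (Sw : (G →L[ℝ] ℝ) → (G →L[ℝ] ℝ))
    (χ : G →L[ℝ] ℝ) : List H → (G →L[ℝ] ℝ)
  | [] => 0
  | [a] => Sh a⁻¹ χ
  | (a :: b :: L) => Sh a⁻¹ (Sw (xfun Sh Sw χ (b :: L)))

/-- The weights. -/
noncomputable def wt (R : ℕ) (l : List H) : ℝ := ((R : ℝ) + 1 - l.length) / R

theorem family (k : ℕ) (z : H → ℕ → G) {δ η : ℝ} (hδ : 0 ≤ δ) (hη : 0 ≤ η)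
    {J : Type} (u u' : J → G)
    (Sh : H → (G →L[ℝ] ℝ) → (G →L[ℝ] ℝ)) (Sw : (G →L[ℝ] ℝ) → (G →L[ℝ] ℝ))
    (χ : G →L[ℝ] ℝ) (hχ : ‖χ‖ ≤ 1)
    (hSh1 : ∀ β, Sh 1 β = β)
    (hShn : ∀ β, ‖β‖ ≤ 1 → ∀ g, ‖Sh g β‖ ≤ 1)
    (hSh : ∀ β, ‖β‖ ≤ 1 → ∀ g h i, i < k → |Sh g β (z h i) - β (z (g * h) i)| ≤ δ)
    (hSwn : ∀ β, ‖β‖ ≤ 1 → ‖Sw β‖ ≤ 1)
    (hSw : ∀ β, ‖β‖ ≤ 1 → ∀ j, |Sw β (u j) - β (u' j)| ≤ η)
    (hSw' : ∀ β, ‖β‖ ≤ 1 → ∀ j, |Sw β (u' j) - β (u j)| ≤ η)
    (R : ℕ) (hR : 1 ≤ R) (hRu : ∀ j, ‖u j‖ ≤ η * R) :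
    ∃ X : Wds H R → (G →L[ℝ] ℝ), (∀ s, ‖X s‖ ≤ 1) ∧ X (root H R) = χ ∧
      (∀ s (h : H) (i : ℕ), i < k → |X ((hperm R h)⁻¹ s) (z 1 i) - X s (z h i)| ≤ 2 * δ) ∧
      (∀ s j, |X (tperm R hR s) (u j) - X s (u' j)| ≤ 2 * η) := by
  have hR0 : (0 : ℝ) < R := by exact_mod_cast hR
  have hxn : ∀ l : List H, ‖xfun Sh Sw χ l‖ ≤ 1 := by
    intro l
    induction l with
    | nil => simp [xfun]
    | cons a L ih =>
      cases L with
      | nil => exact hShn _ hχ _
      | cons b L => exact hShn _ (hSwn _ ih) _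
  have hw0 : ∀ s : Wds H R, 0 ≤ wt R s.1 := by
    intro s
    unfold wt
    have : ((s.1.length : ℕ) : ℝ) ≤ R + 1 := by exact_mod_cast s.2.2.1
    exact div_nonneg (by linarith) hR0.le
  have hw1 : ∀ s : Wds H R, wt R s.1 ≤ 1 := by
    intro s
    unfold wt
    have h1 : 1 ≤ s.1.length := by
      have := s.2.1
      exact List.length_pos_iff.2 this
    have : (1 : ℝ) ≤ ((s.1.length : ℕ) : ℝ) := by exact_mod_cast h1
    rw [div_le_one hR0]
    linarith
  refine ⟨fun s => wt R s.1 • xfun Sh Sw χ s.1, ?_, ?_, ?_, ?_⟩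
  · intro s
    rw [norm_smul, Real.norm_eq_abs, abs_of_nonneg (hw0 s)]
    exact mul_le_one₀ (hw1 s) (norm_nonneg _) (hxn _)
  · show wt R [(1 : H)] • xfun Sh Sw χ [(1 : H)] = χ
    have h1 : wt R [(1 : H)] = 1 := by
      unfold wt
      rw [List.length_singleton, Nat.cast_one, add_sub_cancel_right]
      exact div_self hR0.ne'
    rw [h1, one_smul]
    simp only [xfun, inv_one]
    exact hSh1 χ
  · intro s h i hi
    obtain ⟨l, hl⟩ := s
    have e1 : ((hperm R h)⁻¹ (⟨l, hl⟩ : Wds H R)).1 = hmap h⁻¹ l := rfl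
    simp only [e1]
    have hlen : wt R (hmap h⁻¹ l) = wt R l := by
      cases l <;> simp [wt, hmap]
    rw [hlen]
    -- the unweighted estimate
    have key : |xfun Sh Sw χ (hmap h⁻¹ l) (z 1 i) - xfun Sh Sw χ l (z h i)| ≤ 2 * δ := by
      match l, hl.1 with
      | (a :: L), _ =>
        obtain ⟨β, hβ, hβe⟩ : ∃ β : G →L[ℝ] ℝ, ‖β‖ ≤ 1 ∧ ∀ a : H,
            xfun Sh Sw χ (a :: L) = Sh a⁻¹ β := by
          cases L with
          | nil => exact ⟨χ, hχ, fun a => rfl⟩
          | cons b L => exact ⟨Sw (xfun Sh Sw χ (b :: L)), hSwn _ (hxn _), fun a => rfl⟩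
        simp only [hmap]
        rw [hβe, hβe]
        have h1 := hSh β hβ ((h⁻¹ * a)⁻¹) 1 i hi
        have h2 := hSh β hβ (a⁻¹) h i hi
        have h3 : (h⁻¹ * a)⁻¹ * 1 = a⁻¹ * h := by group
        rw [h3] at h1
        rw [abs_le] at h1 h2 ⊢
        constructor <;> linarith [h1.1, h1.2, h2.1, h2.2]
    have e2 : (wt R l • xfun Sh Sw χ (hmap h⁻¹ l)) (z 1 i) - (wt R l • xfun Sh Sw χ l) (z h i)
        = wt R l * (xfun Sh Sw χ (hmap h⁻¹ l) (z 1 i) - xfun Sh Sw χ l (z h i)) := by
      simp [mul_sub]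
    rw [e2, abs_mul, abs_of_nonneg (hw0 ⟨l, hl⟩)]
    calc wt R l * |xfun Sh Sw χ (hmap h⁻¹ l) (z 1 i) - xfun Sh Sw χ l (z h i)|
        ≤ 1 * (2 * δ) := mul_le_mul (hw1 ⟨l, hl⟩) key (abs_nonneg _) zero_le_one
      _ = 2 * δ := one_mul _
  · -- the estimate for the involution
    -- general estimate when `|w - w'| ≤ 1 / R`
    have gen : ∀ (w w' : ℝ) (x x' : G →L[ℝ] ℝ) (a b : G), 0 ≤ w' → w' ≤ 1 → |w - w'| ≤ 1 / R →
        ‖x‖ ≤ 1 → ‖a‖ ≤ η * R → |x a - x' b| ≤ η → |(w • x) a - (w' • x') b| ≤ 2 * η := by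
      intro w w' x x' a b h0 h1 hww hx ha hxx
      have e : (w • x) a - (w' • x') b = (w - w') * x a + w' * (x a - x' b) := by
        simp; ring
      rw [e]
      have i1 : |(w - w') * x a| ≤ η := by
        rw [abs_mul]
        have i2 : |x a| ≤ η * R := by
          rw [← Real.norm_eq_abs]
          exact (x.le_opNorm a).trans ((mul_le_of_le_one_left (norm_nonneg _) hx).trans ha)
        calc |w - w'| * |x a| ≤ 1 / R * (η * R) :=
              mul_le_mul hww i2 (abs_nonneg _) (by positivity)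
          _ = η := by field_simp
      have i3 : |w' * (x a - x' b)| ≤ η := by
        rw [abs_mul, abs_of_nonneg h0]
        calc w' * |x a - x' b| ≤ 1 * η := mul_le_mul h1 hxx (abs_nonneg _) zero_le_one
          _ = η := one_mul _
      exact (abs_add_le _ _).trans (by linarith)
    intro s j
    obtain ⟨l, hl⟩ := s
    have e1 : (tperm R hR (⟨l, hl⟩ : Wds H R)).1 = tmap R l := rfl
    simp only [e1]
    have hcases : (tmap R l = 1 :: l) ∨ (∃ l', l' ≠ [] ∧ l = 1 :: l' ∧ tmap R l = l') ∨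
        (tmap R l = l ∧ l.length = R + 1) := by
      obtain ⟨h1, h2, h3⟩ := hl
      match l, h1, h2 with
      | [a], _, _ => left; simp [tmap]
      | (a :: b :: L), _, h2 =>
        by_cases ha : a = 1
        · right; left
          exact ⟨b :: L, by simp, by rw [ha], by simp [tmap, ha]⟩
        · by_cases hL : L.length + 2 ≤ R
          · left; simp [tmap, ha, hL]
          · right; right
            refine ⟨by simp [tmap, ha, hL], ?_⟩
            simp at h2 ⊢
            omega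
    have hxs : ∀ l : List H, l ≠ [] → xfun Sh Sw χ (1 :: l) = Sw (xfun Sh Sw χ l) := by
      intro l hl
      cases l with
      | nil => exact absurd rfl hl
      | cons b L => simp only [xfun, inv_one]; exact hSh1 _
    rcases hcases with h | ⟨l', hl', hll, h⟩ | ⟨h, hlen⟩
    · rw [h, hxs l hl.1]
      refine gen _ _ _ _ _ _ (hw0 ⟨l, hl⟩) (hw1 ⟨l, hl⟩) ?_ (hSwn _ (hxn _)) (hRu j)
        (hSw _ (hxn _) j)
      have : wt R (1 :: l) - wt R l = -(1 / R) := by
        unfold wt
        push_cast [List.length_cons]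
        field_simp
        ring
      rw [this, abs_neg, abs_of_pos (by positivity)]
    · rw [h]
      have h5 : xfun Sh Sw χ l = Sw (xfun Sh Sw χ l') := by rw [hll, hxs l' hl']
      rw [h5]
      refine gen _ _ _ _ _ _ (hw0 ⟨l, hl⟩) (hw1 ⟨l, hl⟩) ?_ (hxn _) (hRu j) ?_
      · have : wt R l' - wt R l = 1 / R := by
          rw [hll]
          unfold wt
          push_cast [List.length_cons]
          field_simp
          ring
        rw [this, abs_of_pos (by positivity)]
      · rw [abs_sub_comm]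
        exact hSw' _ (hxn _) j
    · rw [h]
      have : wt R l = 0 := by
        unfold wt
        rw [hlen]
        push_cast
        simp
      rw [this]
      simp
      linarith

end Pool.Agent.Lib.MP_dc9a2a_an
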